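import Pool.Agent.T9h7.RD.Spec2

/-!
# Bounds for the counters
-/

set_option autoImplicit false

namespace Pool.Agent.T9h77.RD

open Finset Pool.Agent.T9h7.RD

theorem sBnd : SBnd := by
  intro n M T h s w ε hε hsε hne hs hw σ hσ hL
  obtain ⟨a, b, nA, nI, nB, z⟩ := σ
  obtain ⟨hlt, hbT, i1, i2, i3⟩ := hσ
  simp only at hlt hbT i1 i2 i3 hL ⊢
  set B : ℝ := 2 * (n : ℝ) + 2 with hB
  have hn0 : (0 : ℝ) ≤ n := Nat.cast_nonneg _
  have hB1 : 1 ≤ B := by rw [hB]; linarith
  have hB0 : 0 < B := by linarith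
  have hlB : 0 ≤ Real.log B := Real.log_nonneg hB1
  obtain ⟨C₀, hC₀⟩ := hne (a + 1) (by omega) (by omega)
  have key : ∀ C ∈ M (a + 1), (z C : ℝ) * Real.log 2 ≤
      Real.log 3 + w * Real.log B + (ε * nI - ε * nB) := by
    intro C hC
    have h1 : wt z C ≤ W M z a b := by
      unfold W
      refine Finset.single_le_sum (f := fun C => wt z C) (fun C _ => (wt_pos z C).le) ?_
      exact Finset.mem_biUnion.2 ⟨a + 1, Finset.mem_Ioo.2 ⟨by omega, by omega⟩, hC⟩
    have h2 : (2 : ℝ) ^ (z C) / B ^ w ≤ 3 * Real.exp (ε * nI - ε * nB) := by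
      refine le_trans ?_ (h1.trans i2)
      unfold wt
      refine div_le_div_of_nonneg_left (by positivity) (by positivity) ?_
      exact pow_le_pow_right₀ hB1 (hw (a + 1) (by omega) C hC)
    rw [div_le_iff₀ (by positivity)] at h2
    have h3 := Real.log_le_log (by positivity) h2
    rw [Real.log_pow, Real.log_mul (by positivity) (by positivity),
      Real.log_mul (by norm_num) (Real.exp_pos _).ne', Real.log_exp, Real.log_pow] at h3
    linarith
  have hlog3 : Real.log 3 ≤ 2 := by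
    have := Real.log_le_sub_one_of_pos (show (0 : ℝ) < 3 by norm_num)
    linarith
  have hlog2 : 0.6931471803 < Real.log 2 := Real.log_two_gt_d9
  have hlog30 : 0 ≤ Real.log 3 := Real.log_nonneg (by norm_num)
  refine ⟨?_, ?_, ?_⟩
  · calc 2 ^ nA = 1 * 2 ^ nA := (one_mul _).symm
      _ ≤ (b - a - 1) * 2 ^ nA := Nat.mul_le_mul_right _ (by omega)
      _ ≤ T := i1
  · have h3 := i3 (a + 1) (by omega) (by omega)
    have h4 : (h : ℝ) * nI ≤ ∑ C ∈ M (a + 1), (C.card : ℝ) * z C := by
      exact_mod_cast h3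
    have h5 : (h : ℝ) * nI * Real.log 2 ≤
        ∑ C ∈ M (a + 1), (C.card : ℝ) * (Real.log 3 + w * Real.log B + ε * nI) := by
      refine (mul_le_mul_of_nonneg_right h4 (by linarith)).trans ?_
      rw [Finset.sum_mul]
      refine Finset.sum_le_sum fun C hC => ?_
      rw [mul_assoc]
      refine mul_le_mul_of_nonneg_left ?_ (Nat.cast_nonneg _)
      have h6 := key C hC
      have h7 : 0 ≤ ε * nB := by positivity
      linarith
    rw [← Finset.sum_mul] at h5
    have h8 : (∑ C ∈ M (a + 1), (C.card : ℝ)) ≤ s := by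
      exact_mod_cast hs (a + 1) (by omega)
    have h9 : 0 ≤ Real.log 3 + w * Real.log B + ε * nI := by positivity
    have h10 := h5.trans (mul_le_mul_of_nonneg_right h8 h9)
    have h11 : 4 * (s : ℝ) * ε * nI ≤ (h : ℝ) * nI :=
      mul_le_mul_of_nonneg_right hsε (Nat.cast_nonneg _)
    have h12 : 0 ≤ (h : ℝ) * nI := by positivity
    have h13 : (h : ℝ) * nI * 0.4 ≤ (s : ℝ) * (Real.log 3 + w * Real.log B) := by
      have h14 : (h : ℝ) * nI * 0.65 ≤ (h : ℝ) * nI * Real.log 2 :=
        mul_le_mul_of_nonneg_left (by linarith) h12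
      nlinarith
    have h15 : (s : ℝ) * (Real.log 3 + w * Real.log B) ≤ (s : ℝ) * (w * Real.log B + 2) :=
      mul_le_mul_of_nonneg_left (by linarith) (Nat.cast_nonneg _)
    have h16 : 0 ≤ (s : ℝ) * (w * Real.log B + 2) := by positivity
    linarith
  · have h1 := key C₀ hC₀
    have h2 : 0 ≤ (z C₀ : ℝ) * Real.log 2 := by
      have : 0 ≤ Real.log 2 := by linarith
      positivity
    linarith

end Pool.Agent.T9h77.RD
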