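import Pool.Agent.T9h7.RD.Defs

/-!
# Shortest refutations
-/

set_option autoImplicit false

namespace Pool.Agent.T9h77.RD

open Finset Pool.Agent.T9h7.RD

theorem sMin : SMin := by
  classical
  intro n F s w τ M hM hs hw
  let P : ℕ → Prop := fun T => ∃ M' : ℕ → Finset (Finset (Fin n × Bool)), IsRef F T M' ∧
    (∀ t ≤ T, ∑ C ∈ M' t, C.card ≤ s) ∧ (∀ t ≤ T, ∀ C ∈ M' t, C.card ≤ w)
  have hP : ∃ T, P T := ⟨τ, M, hM, hs, hw⟩
  set T := Nat.find hP with hT
  obtain ⟨M', hM', hs', hw'⟩ : P T := Nat.find_spec hP
  have hmin : ∀ m, m < T → ¬ P m := fun m hm => Nat.find_min hP hm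
  have key : ∀ i j, i < j → j ≤ T → M' i ≠ M' j := by
    intro i j hij hj heq
    refine hmin (T - (j - i)) (by omega)
      ⟨fun t => if t ≤ i then M' t else M' (t + (j - i)), ⟨?_, ?_, ?_⟩, ?_, ?_⟩
    · simp only [Nat.zero_le, if_true]
      exact hM'.1
    · show ∅ ∈ (if T - (j - i) ≤ i then M' (T - (j - i)) else M' (T - (j - i) + (j - i)))
      by_cases h : T - (j - i) ≤ i
      · rw [if_pos h]
        have h1 : T - (j - i) = i := by omega
        have h2 : T = j := by omega
        rw [h1, heq, ← h2]
        exact hM'.2.1
      · rw [if_neg h]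
        have h1 : T - (j - i) + (j - i) = T := by omega
        rw [h1]
        exact hM'.2.1
    · intro t ht
      rcases lt_trichotomy t i with h | h | h
      · have h1 : (if t ≤ i then M' t else M' (t + (j - i))) = M' t := if_pos h.le
        have h2 : (if t + 1 ≤ i then M' (t + 1) else M' (t + 1 + (j - i))) = M' (t + 1) :=
          if_pos (by omega)
        simp only [h1, h2]
        exact hM'.2.2 t (by omega)
      · subst h
        have h1 : (if t ≤ t then M' t else M' (t + (j - t))) = M' j := by
          rw [if_pos le_rfl, heq]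
        have h2 : (if t + 1 ≤ t then M' (t + 1) else M' (t + 1 + (j - t))) = M' (j + 1) := by
          rw [if_neg (by omega)]
          congr 1
          omega
        simp only [h1, h2]
        exact hM'.2.2 j (by omega)
      · have h1 : (if t ≤ i then M' t else M' (t + (j - i))) = M' (t + (j - i)) :=
          if_neg (by omega)
        have h2 : (if t + 1 ≤ i then M' (t + 1) else M' (t + 1 + (j - i))) =
            M' (t + (j - i) + 1) := by
          rw [if_neg (by omega)]
          congr 1
          omega
        simp only [h1, h2]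
        exact hM'.2.2 (t + (j - i)) (by omega)
    · intro t ht
      show ∑ C ∈ (if t ≤ i then M' t else M' (t + (j - i))), C.card ≤ s
      by_cases h : t ≤ i
      · rw [if_pos h]
        exact hs' t (by omega)
      · rw [if_neg h]
        exact hs' _ (by omega)
    · intro t ht
      show ∀ C ∈ (if t ≤ i then M' t else M' (t + (j - i))), C.card ≤ w
      by_cases h : t ≤ i
      · rw [if_pos h]
        exact hw' t (by omega)
      · rw [if_neg h]
        exact hw' _ (by omega)
  refine ⟨T, M', hM', hs', hw', ?_, ?_⟩
  · intro i hi j hj heq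
    rcases lt_trichotomy i j with h | h | h
    · exact absurd heq (key i j h hj)
    · exact h
    · exact absurd heq.symm (key j i h hi)
  · intro t ht h0
    exact hmin t ht ⟨M', ⟨hM'.1, h0, fun u hu => hM'.2.2 u (by omega)⟩,
      fun u hu => hs' u (by omega), fun u hu => hw' u (by omega)⟩

end Pool.Agent.T9h77.RD
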